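import Pool.Agent.Run7.h886.PL.Fin
import Pool.Agent.Run7.h286.PL.Ell

/-!
# The rank conjecture for all the quadratic twists of elliptic curves over `F_q(t)`: exact joint law and moments

Let `k` be a finite field of odd characteristic with `q` elements, `K = k(t)`, and let `E` be the elliptic curve
`y ^ 2 = x ^ 3 + a x + b` with `a`, `b` in `k[t]`, `deg a ≤ 4 N`, `deg b ≤ 6 N`, `N ≥ 1`, such that
`Δ = 4 a ^ 3 + 27 b ^ 2` is a squarefree polynomial and `x ^ 3 + a_∞ x + b_∞` is irreducible over `k`, where `a_∞`,
`b_∞` in `k` are the coefficients of `t ^ (4 N)` in `a` and of `t ^ (6 N)` in `b`. If the characteristic is larger than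
three, these pairs are a positive proportion of all the pairs `(a, b)` with `deg a ≤ 4 N`, `deg b ≤ 6 N`. For a
squarefree `D` in `k[t]` let `E_D` be the quadratic twist `D y ^ 2 = x ^ 3 + a x + b`.

**Theorem for one curve.** For every `D` prime to `Δ` the group `E_D(K)` has no point of order two, and

`2 ^ rank E_D(K) * #Sha(E_D/K)[2] = #(E_D(K) / 2 E_D(K)) * #Sha(E_D/K)[2] = 2 ^ d`

for some `d = d(D)`. For `D` random among the squarefree polynomials of degree `m` with any given leading
coefficient, prime to `Δ` (these are a positive proportion of all the `q ^ m` polynomials), `m → ∞`, over the fixed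
finite field `k`:

* `d` has the law of Poonen and Rains, `P(d) = (∏_{i ≤ d} 2 / (2 ^ i - 1)) / ∏_{j ≥ 0} (1 + 2 ^ (-j))`; one half of all
  the `d` are even;
* all the moments converge: the average of `2 ^ rank * #Sha[2]` tends to `3`, the average of its `j`-th power tends to
  `(1 + 2) (1 + 4) ... (1 + 2 ^ j)`, the average of `d`, so an upper bound for the average rank, tends to `1.2645`, and
  so on;
* for at least `20.97` percent of all these `D` the group `E_D(K)` is uniquely divisible by two and `Sha(E_D/K)` has
  no 2-primary part (even without the condition at infinity). So for these `D` the question has a positive answer: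
  the rank is zero, `Sha(E_D/K)` is finite and `L(E_D, 1) ≠ 0` (Artin and Tate, Milne: the conjecture holds if and
  only if the 2-primary part of `Sha` is finite; this consequence is not formalised).

**Theorem for several curves.** The theorem below is about `n` elliptic curves `E_1, ..., E_n` as above with pairwise
coprime discriminants: the numbers `d_1(D), ..., d_n(D)` are independent for a random `D`, with convergence of all
the joint moments, and for at least `(0.2097) ^ n` of ALL the `D` the rank conjecture holds for all the `n` twists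
`E_{1, D}, ..., E_{n, D}` at once (`0 = 0`). So there are relations between the twists of different curves of no kind:
for every set `S` of the curves and all `r_i` the event that `2 ^ rank #Sha[2]` of the `i`-th curve is `2 ^ (r_i)` for
the `i` in `S` has the product of the probabilities.

The starting results over global function fields on this page and on the related pages are about infinitely many
twists, curves with rational points of order two, or all `f` ordered by height (some twist for each of many
curves). Here `E[2]` is irreducible over `k'(t)`, `k'` the algebraic closure of `k`, and the curves are fixed.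

`E(L)` is the Picard group of the affine coordinate ring `L[x, y] / (y ^ 2 - F(x))`, `F` the cubic, and the
Tate-Shafarevich group is given by continuous cocycles of the absolute Galois group of `K` with values in
`E(K^sep)` (`Pool/Agent/N874/Jac/Def.lean`). The curve `D y ^ 2 = x ^ 3 + a x + b` has the equation
`y ^ 2 = x ^ 3 + a D ^ 2 x + b D ^ 3`.

This is the theorem of the projects PRL (helper286, with helpers 160, 209, 212, 215, 216, 270, 303, 382, 416, 502,
547, 704, 711, 760, 803, 824, 847, 908, 957) and JPL (helper784, with helpers 56, 303, 382, 518, 803, 908, 957) on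
top of project TG (helper784, with helpers 68, 81, 286, 382, 646, 688, 711, 760, 779, 781, 811, 886, 908, 973, and the
libraries TS (helper875), PJ and JB (helper352) and PP (helper874)) for genus one, together with the equality
`#Sel(E, 2) = #(E(K) / 2 E(K)) * #Sha(E/K)[2]` (`Pool/Agent/Run7/h886/PL/Seq.lean`, helper886). Proof: one more prime
`Q` in `D` changes the 2-Selmer group by a reciprocity law, the class of `Q` moves the dimension as in a Markov
chain whose stationary law is the limit law, the error terms are character sums over the curves whose points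
are the factorisations of the cubic at `t`.
-/

set_option autoImplicit false
set_option linter.all false

open Polynomial Filter IsDedekindDomain
open scoped Classical Topology

namespace Pool.Agent.Results.MP_ae0bd0_nt.AllTwistsOverFunctionFields

open Pool.Agent.N874.Jac (J mapJ Cochain Cocycle Coboundary power TrivialAtPrimes TrivialOver)
open Pool.Agent.TH115.GD (CompInf)

section groups

variable (k : Type) [Field k] {K : Type} [Field K] [Algebra k[X] K] [IsFractionRing k[X] K] (F : K[X])

/-- The continuous cocycles of the absolute Galois group of `K = k(t)` with values in `E(K^sep)`, `E` the curve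
`y ^ 2 = F(x)`, whose class in `H ^ 1 (K, E)` is zero over the completions of `K` at all the places (the maximal
ideals of `k[t]` and infinity) and is killed by two. -/
structure ShaTwoCocycle (c : Cochain F) : Prop where
  cocycle : Cocycle c
  two : Coboundary (power c 2)
  finite : TrivialAtPrimes k[X] c
  infinite : TrivialOver (CompInf k K) c

/-- The set `Sha(E/K)[2]` of the elements of `Sha(E/K)` killed by two: the classes of these cocycles. -/
def ShaTwo : Type :=
  Quot fun c c' : {c : Cochain F // ShaTwoCocycle k F c} =>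
    ∃ P : J F (SeparableClosure K), ∀ σ, c.1 σ = c'.1 σ * (mapJ F σ.toAlgHom P / P)

/-- The product of the orders of `E(K) / 2 E(K)` and of `Sha(E/K)[2]`. -/
noncomputable def order : ℕ :=
  (powMonoidHom 2 : J F K →* J F K).range.index * Nat.card (ShaTwo k F)

/-- Its binary logarithm. -/
noncomputable def dim : ℕ := Nat.log 2 (order k F)

/-- Multiplication by two is bijective on `E(K)`, `E` the curve `y ^ 2 = F(x)` (written
multiplicatively), and every element of 2-power order of `H ^ 1 (K, E)` which is zero over the completions of `K` at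
all maximal ideals of `k[t]` is zero: every continuous cocycle `c` of the absolute Galois group of `K` with values
in `E(K^sep)` whose class is zero over these completions and whose power `c ^ (2 ^ n)` is a coboundary is a
coboundary. -/
def NoTwoPart : Prop :=
  (Function.Bijective fun P : J F K => P ^ 2) ∧
    ∀ (c : Cochain F) (n : ℕ), Cocycle c → TrivialAtPrimes k[X] c → Coboundary (power c (2 ^ n)) →
      Coboundary c

end groups

/-- The weights `∏_{i ≤ d} 2 / (2 ^ i - 1)` of the law of Poonen and Rains. -/
noncomputable def weight (d : ℕ) : ℝ := ∏ i ∈ Finset.range d, (2 : ℝ) / (2 ^ (i + 1) - 1)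

/-- The law of Poonen and Rains. -/
noncomputable def prob (d : ℕ) : ℝ := weight d / ∑' j, weight j

/-- The expectation of `φ` for this law. -/
noncomputable def mean (φ : ℕ → ℝ) : ℝ := (∑' d, weight d * φ d) / ∑' d, weight d

section defs

variable {k : Type} [Field k]

/-- `deg a ≤ 4 N`, `deg b ≤ 6 N`. -/
def HasHeight (N : ℕ) (a b : k[X]) : Prop := a.natDegree ≤ 4 * N ∧ b.natDegree ≤ 6 * N

/-- The family of the curves `y ^ 2 = x ^ 3 + a x + b`: `deg a ≤ 4 N`, `deg b ≤ 6 N`, squarefree discriminant,
irreducible cubic at infinity. -/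
structure InFamily (N : ℕ) (a b : k[X]) : Prop where
  height : HasHeight N a b
  squarefree : Squarefree (4 * a ^ 3 + 27 * b ^ 2)
  inert : Irreducible (X ^ 3 + C (a.coeff (4 * N)) * X + C (b.coeff (6 * N)) : k[X])

variable (K : Type) [Field K] [Algebra k[X] K] [IsFractionRing k[X] K]

/-- The right side of the equation `y ^ 2 = x ^ 3 + a D ^ 2 x + b D ^ 3` over `K = k(t)` of the quadratic twist
`D y ^ 2 = x ^ 3 + a x + b`. -/
noncomputable def twist (a b D : k[X]) : K[X] :=
  X ^ 3 + C (algebraMap k[X] K (a * D ^ 2)) * X + C (algebraMap k[X] K (b * D ^ 3))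

variable {n : ℕ}

/-- The squarefree polynomials of degree `m` with leading coefficient `u` which are prime to all the
discriminants. -/
def Twists (a b : Fin n → k[X]) (u : k) (m : ℕ) : Set k[X] :=
  {D | D.leadingCoeff = u ∧ D.natDegree = m ∧ Squarefree D ∧
    ∀ i, IsCoprime D (4 * a i ^ 3 + 27 * b i ^ 2)}

/-- The numbers `d_i(D)`. -/
noncomputable def dims (a b : Fin n → k[X]) (D : k[X]) (i : Fin n) : ℕ :=
  dim k (twist K (a i) (b i) D)

end defs

/-- **Theorem.** Let `k` be a finite field of odd characteristic with `q` elements, `K = k(t)`.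
(1) Let `n ≥ 1` and let `E_i`: `y ^ 2 = x ^ 3 + a_i x + b_i`, `i = 1, ..., n`, be elliptic curves of the families
(`deg a_i ≤ 4 N_i`, `deg b_i ≤ 6 N_i`, `N_i ≥ 1`, squarefree discriminant, irreducible cubic at infinity) with pairwise
coprime discriminants, and `u ≠ 0` in `k`. For a squarefree `D` of degree `m` with leading coefficient `u`, prime to
the discriminants (at least `c q ^ m` polynomials, `c > 0`, for all large `m`) let `E_{i, D}` be the twist
`D y ^ 2 = x ^ 3 + a_i x + b_i`. Then `E_{i, D}(K)` has no points of order two,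
`#(E_{i, D}(K) / 2 E_{i, D}(K)) * #Sha(E_{i, D}/K)[2] = 2 ^ d_i`. For every function `φ` of at most exponential growth
the average of `φ(d_1, ..., d_n)` over these `D` tends, for `m → ∞`, to the expectation of `φ` for the product of `n`
copies of the law of Poonen and Rains. For all large `m` the groups `E_{i, D}(K)` are uniquely divisible by two and
the 2-primary parts of the groups `Sha(E_{i, D}/K)` are zero, for all `i`, for at least `(0.2097) ^ n` of these `D`.
(2) The sum of the weights of the law is `4.76846...`, the expectation of `2 ^ (j d)` is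
`(1 + 2) (1 + 4) ... (1 + 2 ^ j)`, the expectation of `(-1) ^ d` is zero and the expectation of `d` is `1.2645...`.
(3) If the characteristic is not two or three, a positive proportion of all pairs `(a, b)` with `deg a ≤ 4 N`,
`deg b ≤ 6 N` belongs to the family. -/
theorem result (k : Type) [Field k] [Finite k] (h2 : (2 : k) ≠ 0)
    (K : Type) [Field K] [Algebra k[X] K] [IsFractionRing k[X] K] :
    (∀ (n : ℕ) (N : Fin n → ℕ) (a b : Fin n → k[X]) (u : k), 1 ≤ n → (∀ i, 1 ≤ N i) →
      (∀ i, InFamily (N i) (a i) (b i)) →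
      (∀ i j, i ≠ j → IsCoprime (4 * a i ^ 3 + 27 * b i ^ 2) (4 * a j ^ 3 + 27 * b j ^ 2)) →
      u ≠ 0 →
      (∃ c : ℝ, 0 < c ∧ ∀ᶠ m : ℕ in atTop,
        c * (Nat.card k : ℝ) ^ m ≤ ((Twists a b u m).ncard : ℝ)) ∧
      (∀ m, ∀ D ∈ Twists a b u m, ∀ i,
        (∀ P : J (twist K (a i) (b i) D) K, P ^ 2 = 1 → P = 1) ∧
        (powMonoidHom 2 : J (twist K (a i) (b i) D) K →* J (twist K (a i) (b i) D) K).range.index *
          Nat.card (ShaTwo k (twist K (a i) (b i) D)) = 2 ^ dims K a b D i) ∧
      (∀ φ : (Fin n → ℕ) → ℝ, (∃ C y : ℝ, ∀ d, |φ d| ≤ C * y ^ (∑ i, d i)) →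
        Tendsto (fun m => (∑ᶠ D ∈ Twists a b u m, φ (dims K a b D)) / ((Twists a b u m).ncard : ℝ))
          atTop (𝓝 (∑' d : Fin n → ℕ, φ d * ∏ i, prob (d i)))) ∧
      ∀ᶠ m : ℕ in atTop, (0.2097 : ℝ) ^ n * ((Twists a b u m).ncard : ℝ) ≤
        (({D ∈ Twists a b u m | ∀ i, NoTwoPart k (twist K (a i) (b i) D)} : Set k[X]).ncard : ℝ)) ∧
    (|∑' d, weight d - 4.76846| < 0.00001 ∧
      (∀ j : ℕ, mean (fun d => ((2 : ℝ) ^ j) ^ d) = ∏ i ∈ Finset.Icc 1 j, (1 + (2 : ℝ) ^ i)) ∧
      mean (fun d => (-1 : ℝ) ^ d) = 0 ∧ |mean (fun d => (d : ℝ)) - 1.2645| < 0.0001) ∧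
    ((3 : k) ≠ 0 → ∃ c : ℝ, 0 < c ∧ ∀ᶠ N : ℕ in atTop,
      0 < {p : k[X] × k[X] | HasHeight N p.1 p.2}.ncard ∧
      c * ({p : k[X] × k[X] | HasHeight N p.1 p.2}.ncard : ℝ) ≤
        ({p : k[X] × k[X] | InFamily N p.1 p.2}.ncard : ℝ)) := by
  have hpol : ∀ {R : Type} [CommRing R] (a b : R), Run7.h286.PL.Ell.pol a b =
      X ^ 3 + C a * X + C b := fun a b => rfl
  have htw : ∀ a b D : k[X], twist K a b D =
      ((Run7.h286.PL.Ell.pol a b).scaleRoots D).map (algebraMap k[X] K) := by
    intro a b D
    rw [Run7.h286.PL.Ell.scale_pol, Run7.h286.PL.Ell.map_pol]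
    rfl
  refine ⟨fun n N a b u hn hN hf hc hu => ?_, Run7.h886.PL.numbers, fun h3 => ?_⟩
  · haveI : Nonempty (Fin n) := ⟨⟨0, hn⟩⟩
    have hF : Run7.h784.JP.JF (fun _ : Fin n => 1) N
        (fun i => Run7.h286.PL.Ell.pol ((a i).coeff (4 * N i)) ((b i).coeff (6 * N i)))
        (fun i => Run7.h286.PL.Ell.pol (a i) (b i)) := by
      refine ⟨h2, fun i => Run7.h286.PL.Ell.fm_pol (hN i) h2 (hf i).height.1 (hf i).height.2
        (hf i).squarefree (hf i).inert, fun i j hij => ?_⟩
      show IsCoprime (Pool.Agent.N352.PJ.dsc 1 (Run7.h286.PL.Ell.pol (a i) (b i)))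
        (Pool.Agent.N352.PJ.dsc 1 (Run7.h286.PL.Ell.pol (a j) (b j)))
      rw [Run7.h286.PL.Ell.dsc_pol, Run7.h286.PL.Ell.dsc_pol]
      exact hc i j hij
    have hTw : ∀ m, Twists a b u m = Run7.h784.JP.TwJ (fun _ : Fin n => 1)
        (fun i => Run7.h286.PL.Ell.pol (a i) (b i)) u m := by
      intro m
      ext D
      show _ ↔ _ ∧ _ ∧ _ ∧ ∀ i, IsCoprime D
        (Pool.Agent.N352.PJ.dsc 1 (Run7.h286.PL.Ell.pol (a i) (b i)))
      simp only [Run7.h286.PL.Ell.dsc_pol]
      rfl
    have hsha : ∀ F : K[X], Nat.card (ShaTwo k F) =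
        Nat.card (Run7.h886.PL.ShaH F (Run7.h286.PLC.AllPl k K)) := fun F =>
      Run7.h886.PL.card_shaH (fun c => ⟨fun h => ⟨h.cocycle, h.two, h.finite, h.infinite⟩,
        fun h => ⟨h.1, h.2.1, h.2.2.1, h.2.2.2⟩⟩) fun c c' => Iff.rfl
    have hone : ∀ (m : ℕ), ∀ D ∈ Twists a b u m, ∀ i,
        (∀ P : J (twist K (a i) (b i) D) K, P ^ 2 = 1 → P = 1) ∧
        (powMonoidHom 2 : J (twist K (a i) (b i) D) K →* J (twist K (a i) (b i) D) K).range.index *
          Nat.card (ShaTwo k (twist K (a i) (b i) D)) =
          2 ^ Run7.h286.PL.rkJ K ((Run7.h286.PL.Ell.pol (a i) (b i)).scaleRoots D) ∧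
        (Run7.h286.PL.rkJ K ((Run7.h286.PL.Ell.pol (a i) (b i)).scaleRoots D) = 0 →
          NoTwoPart k (twist K (a i) (b i) D)) := by
      intro m D hD i
      rw [hTw] at hD
      obtain ⟨t1, t2, t3, t4⟩ := Run7.h886.PL.one K hF hu hD i
      rw [hsha, htw]
      exact ⟨t2, t3, fun h0 => ⟨(t4 h0).1, (t4 h0).2.1⟩⟩
    have hdim : ∀ (m : ℕ), ∀ D ∈ Twists a b u m, ∀ i, dims K a b D i =
        Run7.h286.PL.rkJ K ((Run7.h286.PL.Ell.pol (a i) (b i)).scaleRoots D) := by
      intro m D hD i
      unfold dims dim order
      rw [(hone m D hD i).2.1, Nat.log_pow (by norm_num)]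
    refine ⟨?_, fun m D hD i => ?_, fun φ hφ => ?_, ?_⟩
    · obtain ⟨c, hc0, hc1⟩ := Run7.h886.PL.size_one hF hu
      refine ⟨c, hc0, ?_⟩
      filter_upwards [hc1] with m hm
      rw [hTw]
      exact hm
    · rw [hdim m D hD i]
      exact ⟨(hone m D hD i).1, (hone m D hD i).2.1⟩
    · have h := Run7.h886.PL.mean_of K hF hu (dims K a b)
        (fun m D hD i => hdim m D (by rw [hTw]; exact hD) i) φ hφ
      simp only [← hTw] at h
      exact h
    · filter_upwards [Run7.h886.PL.zero_prop K Run7.h886.PL.jfinm hF hu] with m hm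
      rw [Fintype.card_fin] at hm
      have hfin : (Twists a b u m).Finite := by
        rw [hTw]
        exact Run7.h784.JP.twJ_fin hF hu m
      rw [← hTw] at hm
      refine hm.trans ?_
      have hsub : ({D ∈ Twists a b u m |
          ∀ i, Run7.h286.PL.rkJ K ((Run7.h286.PL.Ell.pol (a i) (b i)).scaleRoots D) = 0} :
            Set k[X]) ⊆
          {D ∈ Twists a b u m | ∀ i, NoTwoPart k (twist K (a i) (b i) D)} := fun D hD =>
        ⟨hD.1, fun i => (hone m D hD.1 i).2.2 (hD.2 i)⟩
      exact_mod_cast Set.ncard_le_ncard hsub (hfin.subset fun D hD => hD.1)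
  · have hp : ((2 * 1 + 1).factorial : k) ≠ 0 := by
      have e : ((2 * 1 + 1).factorial : k) = 2 * 3 := by
        norm_num [Nat.factorial]
      rw [e]
      exact mul_ne_zero h2 h3
    obtain ⟨c, hc, h⟩ := Run7.h886.TG.fam_pos (k := k) 1 le_rfl hp
    refine ⟨c, hc, ?_⟩
    filter_upwards [h] with N hN
    have hinj : Function.Injective fun p : k[X] × k[X] => Run7.h286.PL.Ell.pol p.1 p.2 := by
      rintro ⟨a, b⟩ ⟨a', b'⟩ h
      have h0 := congrArg (fun f : k[X][X] => f.coeff 0) h
      have h1 := congrArg (fun f : k[X][X] => f.coeff 1) h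
      simp only [Run7.h286.PL.Ell.coeff_pol] at h0 h1
      norm_num at h0 h1
      rw [h0, h1]
    have hform : ∀ f : k[X][X], Pool.Agent.N352.PJ.Ht 1 (2 * N) f →
        f = Run7.h286.PL.Ell.pol (f.coeff 1) (f.coeff 0) := by
      intro f hf
      ext1 i
      rw [Run7.h286.PL.Ell.coeff_pol]
      by_cases h3 : i = 3
      · rw [if_pos h3, h3]
        have := hf.mon.coeff_natDegree
        rw [hf.deg] at this
        exact this
      · rw [if_neg h3]
        by_cases h1 : i = 1
        · rw [if_pos h1, h1]
        · rw [if_neg h1]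
          by_cases h0 : i = 0
          · rw [if_pos h0, h0]
          · rw [if_neg h0]
            by_cases h22 : i = 2
            · rw [h22]
              exact hf.tr
            · exact coeff_eq_zero_of_natDegree_lt (by rw [hf.deg]; omega)
    have e1 : {f : k[X][X] | Pool.Agent.N352.PJ.Ht 1 (2 * N) f} =
        (fun p : k[X] × k[X] => Run7.h286.PL.Ell.pol p.1 p.2) ''
          {p : k[X] × k[X] | HasHeight N p.1 p.2} := by
      ext f
      constructor
      · intro hf
        refine ⟨(f.coeff 1, f.coeff 0), ⟨?_, ?_⟩, (hform f hf).symm⟩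
        · refine (hf.ht 1 (by norm_num)).trans (le_of_eq ?_)
          ring
        · refine (hf.ht 0 (by norm_num)).trans (le_of_eq ?_)
          ring
      · rintro ⟨⟨a, b⟩, ⟨ha, hb⟩, rfl⟩
        refine ⟨Run7.h286.PL.Ell.monic_pol a b, Run7.h286.PL.Ell.natDegree_pol a b, ?_, ?_⟩
        · rw [Run7.h286.PL.Ell.coeff_pol]
          norm_num
        · intro j hj
          rw [Run7.h286.PL.Ell.coeff_pol]
          interval_cases j
          · norm_num
            refine hb.trans (le_of_eq ?_)
            ring
          · norm_num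
            refine ha.trans (le_of_eq ?_)
            ring
          · norm_num
    have hat : ∀ a b : k[X], Run7.h886.TG.atInf 1 (2 * N) (Run7.h286.PL.Ell.pol a b) =
        X ^ 3 + C (a.coeff (4 * N)) * X + C (b.coeff (6 * N)) := by
      intro a b
      show _ = Run7.h286.PL.Ell.pol (a.coeff (4 * N)) (b.coeff (6 * N))
      ext1 i
      rw [Run7.h886.TG.coeff_atInf, Run7.h286.PL.Ell.coeff_pol, Run7.h286.PL.Ell.coeff_pol]
      by_cases h3 : i = 3
      · rw [if_pos (by omega), if_pos h3]
      · rw [if_neg (by omega), if_neg h3, if_neg h3]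
        by_cases h1 : i = 1
        · rw [if_pos (by omega), if_pos h1, if_pos h1, h1]
          congr 1
          ring
        · rw [if_neg h1, if_neg h1]
          by_cases h0 : i = 0
          · rw [if_pos (by omega), if_pos h0, if_pos h0, h0]
            congr 1
            ring
          · rw [if_neg h0, if_neg h0]
            split_ifs <;> simp
    have e2 : {f : k[X][X] | Run7.h886.TG.InFam 1 N f} =
        (fun p : k[X] × k[X] => Run7.h286.PL.Ell.pol p.1 p.2) ''
          {p : k[X] × k[X] | InFamily N p.1 p.2} := by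
      ext f
      constructor
      · intro hf
        have hf1 : f ∈ {f : k[X][X] | Pool.Agent.N352.PJ.Ht 1 (2 * N) f} := hf.ht
        rw [e1] at hf1
        obtain ⟨⟨a, b⟩, hab, rfl⟩ := hf1
        refine ⟨(a, b), ⟨hab, ?_, ?_⟩, rfl⟩
        · have := hf.sq
          rw [Run7.h286.PL.Ell.dsc_pol] at this
          exact this
        · have := hf.inert
          rw [hat] at this
          exact this
      · rintro ⟨⟨a, b⟩, hab, rfl⟩
        have h5 : Run7.h286.PL.Ell.pol a b ∈ {f : k[X][X] | Pool.Agent.N352.PJ.Ht 1 (2 * N) f} := by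
          rw [e1]
          exact ⟨(a, b), hab.height, rfl⟩
        refine ⟨h5, ?_, ?_⟩
        · show Irreducible (Run7.h886.TG.atInf 1 (2 * N) (Run7.h286.PL.Ell.pol a b))
          rw [hat]
          exact hab.inert
        · show Squarefree (Pool.Agent.N352.PJ.dsc 1 (Run7.h286.PL.Ell.pol a b))
          rw [Run7.h286.PL.Ell.dsc_pol]
          exact hab.squarefree
    rw [e1, e2, Set.ncard_image_of_injective _ hinj, Set.ncard_image_of_injective _ hinj] at hN
    exact hN

end Pool.Agent.Results.MP_ae0bd0_nt.AllTwistsOverFunctionFields
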