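import Mathlib
import Pool.Agent.Run7.h707.TF.FinC

/-!
# The rank conjecture for a FIXED elliptic curve over all the `(ℤ/3)^r`-extensions of a fixed field

`K = ℚ(√-3)`.  Let `c` and `b_1, …, b_s` (`s ≥ 0`) be fixed cube-free elements of `𝓞 K` that are congruent to
third roots of unity modulo `3` (every element prime to `3` is such an element times a cube), the `b_i`
independent modulo cubes, and let `F₀ = K(∛b_1, …, ∛b_s)` and `E_c : y² + c y = x³`.  We suppose that none
of the elements `c b^μ`, `μ ∈ (ℤ/3)^s`, is exceptional (a unit times a cube, or `1` modulo `3` with a norm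
that is `1` modulo `9`).

For `r ≥ 1` let `a = (a_1, …, a_r)` run through ALL the `r`-tuples of elements of the same type, ordered by
the maximum of the norms, and let `F_a = F₀(∛a_1, …, ∛a_r)`.  A tuple is in the family if for all `μ` and
all `ν ≠ 0` the element `c b^μ a^ν` is not exceptional and `b^μ a^ν` is not a unit times a cube.

* The family has among ALL the tuples the density `κ = (3^(r+1) - 2) / 9^r` if all the `b_i` are `1` modulo
  `3` with norms `1` modulo `9` (that is, `F₀ / K` is unramified at `√-3`; for instance `s = 0`), and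
  `κ = 1 / 3^r` otherwise.
* For all the tuples of the family `[F_a : K] = 3^(s + r)` and `L(E_c / F_a, s)` has an entire continuation.
* The tuples of the family such that ALL the groups `E_{c b^μ a^ν}(K)`, `ν ≠ 0`, are finite and ALL the
  groups `Ш(E_{c b^μ a^ν} / K)[3^∞]` trivial have, among ALL the tuples, exactly the density
  `κ c₉^(3^s (3^r - 1))`, `c₉ = ∏_{i ≥ 0} (1 - 3^{-(2 i + 1)}) > 0.639`, as if the curves were independent.
* Let all the `E_{c b^μ}(K)` be finite and the `Ш(E_{c b^μ} / K)[3^∞]` trivial (this is a condition on the fixed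
  objects `E_c` and `F₀` only; for `s = 0`: `E_c(K)` is finite and `Ш(E_c / K)[3^∞] = 0`).  Then for all the
  tuples of the last point the rank part of the conjecture holds for `E_c` over `F_a`: `L(E_c / F_a, 1) ≠ 0`
  and `E_c(F_a)` is finite; moreover `Ш(E_c / F_a)[3^∞]` is killed by `3^(s + r)`.

So for a fixed curve, over a fixed field, the analytic and the algebraic rank stay zero in an exact
positive proportion of all the extensions; for `s = 0`, `r = 1`: in `7/9 c₉² > 0.317` of all the cubic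
extensions `K(∛a)`.  The condition on the fixed objects holds again for the curve and the field `F_a`, so
one can iterate, and there are infinite towers with a positive proportion of choices in every step.
By my file `MP_1a91b9_nt/EveryRadicalField` the condition on the fixed objects holds for a positive
proportion of all the `c`, for every `F₀` with ramification index less than `9` at `√-3`.

`L(E_c / F, s)` is Mathlib's `L`-series of a Weierstrass curve over a number field.

Proof: see the headers of the files `Pool/Agent/Run7/h707/{TC,TD,TE,TF}/*.lean`; `TF` has the joint law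
of the `3`-Selmer groups of the twists by products of fixed and free elements.  The criterion for the
nonvanishing of `L(E_δ / K, 1)`, the descent of the points and of `Ш` and the large sieve are the joint
work of the seats named in the headers of the imported files.
-/

set_option autoImplicit false

namespace Pool.Agent.Results.MP_ae0bd0_nt.FixedCurveAllExtensions

open NumberField WeierstrassCurve
open Pool.Agent.TH841.NF.D (Sha)
open scoped Classical

/-- The curve `E_δ : y² + δ y = x³`. -/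
def curve {F : Type} [Field F] (δ : F) : WeierstrassCurve F := ⟨0, 0, δ, 0, 0⟩

variable {K : Type} [Field K] [NumberField K]

/-- `b^μ = ∏ b i ^ μ i`, the exponents in `{0, 1, 2}`. -/
noncomputable def power {s : ℕ} (b : Fin s → 𝓞 K) (μ : Fin s → ZMod 3) : 𝓞 K :=
  ∏ i, b i ^ (μ i).val

/-- The `b i` are independent modulo cubes: no `b^μ`, `μ ≠ 0`, is a cube. -/
def Independent {s : ℕ} (b : Fin s → 𝓞 K) : Prop :=
  ∀ μ : Fin s → ZMod 3, μ ≠ 0 → ∀ y : 𝓞 K, y ^ 3 ≠ power b μ

/-- `F` is generated over `K` by the cube roots `η i` of the `b i` and `θ k` of the `a k`. -/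
def IsRadical {s r : ℕ} (b : Fin s → 𝓞 K) (a : Fin r → 𝓞 K) (F : Type) [Field F] [Algebra K F]
    (η : Fin s → F) (θ : Fin r → F) : Prop :=
  (∀ i, η i ^ 3 = algebraMap K F (b i)) ∧ (∀ k, θ k ^ 3 = algebraMap K F (a k)) ∧
    ∀ S : Subfield F, (∀ x : K, algebraMap K F x ∈ S) → (∀ i, η i ∈ S) → (∀ k, θ k ∈ S) → S = ⊤

/-- `a` is cube-free and congruent to a third root of unity modulo `3`. -/
def Admissible (a : 𝓞 K) : Prop :=
  (∀ x : 𝓞 K, x ^ 3 ∣ a → IsUnit x) ∧ ∃ ω : 𝓞 K, ω ^ 3 = 1 ∧ (3 : 𝓞 K) ∣ a - ω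

/-- `δ` is a unit times a cube. -/
def UnitTimesCube (δ : 𝓞 K) : Prop := ∃ u x : 𝓞 K, IsUnit u ∧ δ = u * x ^ 3

/-- `δ` is `1` modulo `3` and its norm is `1` modulo `9`. -/
def IsOne (δ : 𝓞 K) : Prop := (3 : 𝓞 K) ∣ δ - 1 ∧ (9 : ℤ) ∣ Algebra.norm ℤ δ - 1

/-- `δ` is a unit times a cube, or `1` modulo `3` with a norm that is `1` modulo `9`. -/
def Exceptional (δ : 𝓞 K) : Prop :=
  (∃ u x : 𝓞 K, IsUnit u ∧ δ = u * x ^ 3) ∨
    ((3 : 𝓞 K) ∣ δ - 1 ∧ (9 : ℤ) ∣ Algebra.norm ℤ δ - 1)

/-- The density of the family. -/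
noncomputable def kappa {s : ℕ} (b : Fin s → 𝓞 K) (r : ℕ) : ℝ :=
  if ∀ i, IsOne (b i) then (3 ^ (r + 1) - 2) / 9 ^ r else 1 / 3 ^ r

/-- For `ν ≠ 0` no `c b^μ a^ν` is exceptional and no `b^μ a^ν` is a unit times a cube. -/
def InFamily {s r : ℕ} (c : 𝓞 K) (b : Fin s → 𝓞 K) (a : Fin r → 𝓞 K) : Prop :=
  (∀ (μ : Fin s → ZMod 3) (ν : Fin r → ZMod 3), ν ≠ 0 →
    ¬ Exceptional (c * power b μ * power a ν)) ∧
  ∀ (μ : Fin s → ZMod 3) (ν : Fin r → ZMod 3), ν ≠ 0 → ¬ UnitTimesCube (power b μ * power a ν)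

/-- `E_δ(K)` is finite and the `3`-primary part of `Ш(E_δ / K)` is trivial. -/
def FiniteAndTrivial (δ : 𝓞 K) : Prop :=
  Finite (curve (δ : K)).toAffine.Point ∧ ∀ (n : ℕ) (x : Sha (curve (δ : K))), 3 ^ n • x = 0 → x = 0

/-- The fixed twists: all the `E_{c b^μ}(K)` are finite and the `Ш(E_{c b^μ} / K)[3^∞]` trivial. -/
def BaseTrivial {s : ℕ} (c : 𝓞 K) (b : Fin s → 𝓞 K) : Prop :=
  ∀ μ : Fin s → ZMod 3, FiniteAndTrivial (c * power b μ)

/-- The new twists: for `ν ≠ 0` all the `E_{c b^μ a^ν}(K)` are finite and the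
`Ш(E_{c b^μ a^ν} / K)[3^∞]` trivial. -/
def NewTrivial {s r : ℕ} (c : 𝓞 K) (b : Fin s → 𝓞 K) (a : Fin r → 𝓞 K) : Prop :=
  ∀ (μ : Fin s → ZMod 3) (ν : Fin r → ZMod 3), ν ≠ 0 →
    FiniteAndTrivial (c * power b μ * power a ν)

/-- The number of the admissible tuples `a` of norm at most `X` with the property `P`. -/
noncomputable def number {r : ℕ} (X : ℕ) (P : (Fin r → 𝓞 K) → Prop) : ℝ :=
  ({a : Fin r → 𝓞 K | (∀ k, Algebra.norm ℤ (a k) ≤ X ∧ Admissible (a k)) ∧ P a}.ncard : ℝ)

/-- The property `P` has the density `d` among all the admissible tuples. -/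
def HasDensity {r : ℕ} (P : (Fin r → 𝓞 K) → Prop) (d : ℝ) : Prop :=
  Filter.Tendsto (fun X : ℕ => number X P / number X (fun _ : Fin r → 𝓞 K => True)) Filter.atTop
    (nhds d)

/-- `Λ` is entire and equal to `L(E_c / F, s)` for `Re s > 3 / 2`. -/
def Continues (F : Type) [Field F] [NumberField F] [Algebra K F] (c : 𝓞 K) (Λ : ℂ → ℂ) : Prop :=
  Differentiable ℂ Λ ∧ ∀ s : ℂ, 3 / 2 < s.re → Λ s = (curve (algebraMap K F c)).LSeries s

/-- The order of vanishing of `Λ` at `1` is the rank of `E_c(F)`; moreover both are zero: `Λ 1 ≠ 0` and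
`E_c(F)` is finite. -/
def RankFormula (F : Type) [Field F] [NumberField F] [Algebra K F] (c : 𝓞 K) (Λ : ℂ → ℂ) : Prop :=
  analyticOrderAt Λ 1 = (Module.finrank ℤ (curve (algebraMap K F c)).toAffine.Point : ℕ∞) ∧
    Λ 1 ≠ 0 ∧ Finite (curve (algebraMap K F c)).toAffine.Point

/-- The `3`-primary part of `Ш(E_c / F)` is killed by `3^m`. -/
def ShaKilled (F : Type) [Field F] [NumberField F] [Algebra K F] (m : ℕ) (c : 𝓞 K) : Prop :=
  ∀ (n : ℕ) (x : Sha (curve (algebraMap K F c))), 3 ^ n • x = 0 → 3 ^ m • x = 0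

/-- **Main theorem.** -/
theorem result (K : Type) [Field K] [NumberField K] [IsCyclotomicExtension {3} ℚ K] :
    (0.639 : ℝ) < ∏' i : ℕ, (1 - (1 / 3 : ℝ) ^ (2 * i + 1)) ∧
    ∀ (s : ℕ) (b : Fin s → 𝓞 K) (c : 𝓞 K), Admissible c → (∀ i, Admissible (b i)) →
      Independent b → (∀ μ : Fin s → ZMod 3, ¬ Exceptional (c * power b μ)) → ∀ r : ℕ,
      0 < kappa b r ∧
      (∃ C : ℝ, 0 < C ∧ ∃ X₀ : ℕ, ∀ X : ℕ, X₀ ≤ X →
        C * (X : ℝ) ^ r ≤ number X (fun _ : Fin r → 𝓞 K => True)) ∧
      HasDensity (fun a : Fin r → 𝓞 K => InFamily c b a) (kappa b r) ∧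
      HasDensity (fun a : Fin r → 𝓞 K => InFamily c b a ∧ NewTrivial c b a)
        (kappa b r * (∏' i : ℕ, (1 - (1 / 3 : ℝ) ^ (2 * i + 1))) ^ (3 ^ s * (3 ^ r - 1))) ∧
      ∀ a : Fin r → 𝓞 K, (∀ k, Admissible (a k)) → InFamily c b a →
        (∃ (F : Type) (_ : Field F) (_ : NumberField F) (_ : Algebra K F) (η : Fin s → F)
          (θ : Fin r → F), IsRadical b a F η θ) ∧
        ∀ (F : Type) [Field F] [NumberField F] [Algebra K F] (η : Fin s → F) (θ : Fin r → F),
          IsRadical b a F η θ → Module.finrank K F = 3 ^ (s + r) ∧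
          ∃ Λ : ℂ → ℂ, Continues F c Λ ∧
            (BaseTrivial c b → NewTrivial c b a → RankFormula F c Λ ∧ ShaKilled F (s + r) c) := by
  have e : ∀ (r X : ℕ), number X (fun _ : Fin r → 𝓞 K => True) =
      ({a : Fin r → 𝓞 K | ∀ k, Algebra.norm ℤ (a k) ≤ X ∧ Admissible (a k)}.ncard : ℝ) := by
    intro r X
    unfold number
    simp only [and_true]
  refine ⟨Pool.Agent.XLK.t_C9.2.2.2.1, fun s b c hc hb hind hE r => ?_⟩
  obtain ⟨h1, h2, h3, h4⟩ := Run7.h707.TF.finC K r (c := c) hc (d := b) hb hind hE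
  refine ⟨?_, ?_, ?_, ?_, fun a ha hF => ⟨?_, fun F _ _ _ η θ hG => ?_⟩⟩
  · unfold kappa
    split_ifs
    · have : (1 : ℝ) ≤ 3 ^ r := one_le_pow₀ (by norm_num)
      refine div_pos ?_ (by positivity)
      rw [pow_succ]
      linarith
    · positivity
  · simp only [e]
    exact h1
  · unfold HasDensity
    simp only [e]
    exact h2
  · unfold HasDensity
    simp only [e]
    exact h3
  · obtain ⟨F, i1, i2, i3, θ, hθ, hg⟩ := Run7.h707.TE.ex_F (Fin.append (fun i => (b i : K))
      fun k => (a k : K))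
    refine ⟨F, i1, i2, i3, fun i => θ (Fin.castAdd r i), fun k => θ (Fin.natAdd s k), fun i => ?_,
      fun k => ?_, fun S hS h5 h6 => hg S hS fun i => ?_⟩
    · rw [hθ, Fin.append_left]
    · rw [hθ, Fin.append_right]
    · induction i using Fin.addCases with
      | left i => exact h5 i
      | right i => exact h6 i
  · obtain ⟨hd, Λ, h5, h6, h7⟩ := h4 a ha hF.1 hF.2 F η θ hG
    refine ⟨hd, Λ, ⟨h5, h6⟩, fun hB hN => ?_⟩
    obtain ⟨h8, h9, h10⟩ := h7 fun μ ν => by
      by_cases hν : ν = 0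
      · have hz : Run7.h707.TE.bp a ν = 1 := by rw [hν, Run7.h707.TF.bp_zero]
        rw [hz, mul_one]
        exact hB μ
      · exact hN μ ν hν
    refine ⟨⟨?_, h8, h9⟩, h10⟩
    have h11 : analyticOrderAt Λ 1 = 0 := analyticOrderAt_eq_zero.2 (Or.inr h8)
    have h12 : Module.finrank ℤ (curve (algebraMap K F c)).toAffine.Point = 0 := by
      have hfin : Finite (curve (algebraMap K F c)).toAffine.Point := h9
      apply Module.finrank_eq_zero_of_rank_eq_zero
      rw [rank_eq_zero_iff]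
      intro x
      refine ⟨(Nat.card (curve (algebraMap K F c)).toAffine.Point : ℤ), ?_, ?_⟩
      · have : 0 < Nat.card (curve (algebraMap K F c)).toAffine.Point := Nat.card_pos
        exact_mod_cast this.ne'
      · rw [natCast_zsmul]
        exact card_nsmul_eq_zero'
    rw [h11, h12]
    rfl

end Pool.Agent.Results.MP_ae0bd0_nt.FixedCurveAllExtensions
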