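import Pool.Agent.Run7.h743.SP.Comp2
import Pool.Agent.Results.MP_f50388_nt.AllTwistsOddDegree

/-!
# The rank part and the 2-part of the Birch and Swinnerton-Dyer conjecture for quadratic twists of
# `X_0(14)`: from `ℚ` to fields of odd degree in which the primes of the twist split arbitrarily

Let `E_D` be the quadratic twist of the modular curve `X_0(14)` by a squarefree integer `D = 1` modulo
`4`, positive or negative.  Let `K` be a field of odd degree in the `q`-th cyclotomic field, `q` a power
of a prime, prime to `14 D`; suppose that `q` is a power of three (so `K` is a layer of the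
cyclotomic `ℤ₃`-extension) or that `2`, `7` are inert in `K` and the narrow class number is odd.
Suppose that every prime divisor `p` of `D` is inert in `K`, or is inert in `ℚ(√-7)` and `5` modulo `8`;
in the second case there is no condition on the decomposition of `p` in `K` (it may split completely).

We prove, for all such `D`, without a condition on the rank or the Tate-Shafarevich group of `E_D`: the
`L`-functions of `E_D` over `K` and over `ℚ` have the same order at `s = 1`, the ranks of `E_D(K)` and of
`E_D(ℚ)` are equal, the 2-primary parts of the Tate-Shafarevich groups are isomorphic, and the analytic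
orders of the Tate-Shafarevich groups over `K` and `ℚ` differ by a rational number that is a unit at `2`.
So the rank part, and the 2-part of the leading coefficient formula, hold over `K` if and only if they
hold over `ℚ` (they hold for the rank part if the order over `ℚ` is at most one: Gross, Zagier,
Kolyvagin).  If all the prime divisors of `D` are inert in `ℚ(√2)` and in `ℚ(√-7)`, everything holds over
`ℚ` and over `K`: the order and the rank are zero and the 2-primary part of the Tate-Shafarevich group is
trivial.

So far (`MP_f50388_nt/AllTwistsOddDegree`, `MP_9c97e9_nt/AllInertTwists`) all the primes of `D` had to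
be inert in `K`; over the layers of the cyclotomic `ℤ₃`-extension this excludes the primes `± 1` modulo
`9`, and then each place of `ℚ` that divides `D` has only one place of `K` above it.  With primes that
split both sides of the formula change: the product of the Tamagawa numbers over `K` is divisible by
two for each place of `K` above such a `p`, and so is `L(E_D/K, 1)` divided by the period.

The proof.  `L(E_D/K, s)` is the product of the `L(E, χ ψ_D, s)` over the characters `χ` of
`Gal(K/ℚ)`.  Let `χ ≠ 1` have conductor `f`, and let `P` be the set of the prime divisors `p` of `D` with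
`χ(p) = 1`.  The algebraic part of `L(E, χ ψ_D, 1)` is the sum of the `χ(a) (a / D) s(a / f D)`, where
`s` is the even or odd modular symbol.  By orthogonality on the classes of the residues modulo the
squares at the primes in `P` and by the Hecke relations, the sum is expressed by the sums for the
divisors of `D` and `2^{#P}` times the sum over one class, which is stable under `a ↦ - a` and therefore
even; the factor of the Hecke relation at `p ∈ P` is `a_p - 2` up to sign, which is `2` modulo `4`.  So
the sum is `2^{#P}` times an element that is congruent modulo `2` to the sum for the product of the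
primes not in `P`, and this does not vanish modulo the primes above `2` by the starting files (signs
of cyclotomic units).  The number of the characters with `χ(p) = 1` is the number of the primes of `K`
above `p`.  The Tamagawa numbers are computed at all the places above `D`, whose residue degrees are
odd; at a prime `p = 5` modulo `8`, inert in `ℚ(√-7)`, the local conditions of the Selmer groups for the
isogenies of degree two are the same at all the places above `p` as over `ℚ` (starting file
`Y682.stabH`), as `2` and `-7` are not squares modulo these places.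
-/

set_option autoImplicit false

open NumberField NumberField.InfinitePlace IsDedekindDomain WeierstrassCurve MeasureTheory Filter
  Topology

namespace Pool.Agent.Results.MP_ae0bd0_nt.TwistsOverOddDegreeFields

open scoped Classical

open Pool.Agent.TH841.NF.D (Sha)

open Pool.Agent.Y682 (NCl)

/-- The quadratic twist `E_D` of `X_0(14)` (`D = 1` modulo `4`), with its global minimal equation
`y² + x y + y = x³ + ((D - 1)/4) x² + ((9 D² - 1)/2) x - (23 D³ + 1)/4`.  It is isomorphic to
`Y² = X (X² + 13 D X + 128 D²)` by `X = 4 (x - D)`, `Y = 4 (2 y + x + 1)`. -/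
def twist (D : ℤ) : WeierstrassCurve ℤ :=
  ⟨1, (D - 1) / 4, 1, (9 * D ^ 2 - 1) / 2, -((23 * D ^ 3 + 1) / 4)⟩

/-- The curve given by the equation of `W` over the ring `R`. -/
abbrev base (W : WeierstrassCurve ℤ) (R : Type) [CommRing R] : WeierstrassCurve R :=
  W.map (Int.castRingHom R)

/-- The number of the affine points `(x, y)` over the ring `R`. -/
noncomputable def pts (W : WeierstrassCurve ℤ) (R : Type) [CommRing R] : ℕ :=
  Nat.card {P : R × R // (base W R).toAffine.Equation P.1 P.2}

section

variable {K : Type} [Field K] [NumberField K]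

/-- `a_v = N v + 1 - #W(k_v)`, the points over the residue field `k_v` counted with the point at
infinity. -/
noncomputable def a (W : WeierstrassCurve ℤ) (v : HeightOneSpectrum (𝓞 K)) : ℤ :=
  (Ideal.absNorm v.asIdeal : ℤ) - pts W (𝓞 K ⧸ v.asIdeal)

/-- The Euler factor of `L(W/K, s)` at `v` : `(1 - a_v N v^(-s) + N v^(1 - 2 s))⁻¹` if the
discriminant is a unit at `v`, and `(1 - a_v N v^(-s))⁻¹` otherwise. -/
noncomputable def factor (W : WeierstrassCurve ℤ) (s : ℂ) (v : HeightOneSpectrum (𝓞 K)) : ℂ :=
  (1 - (a W v : ℂ) * (Ideal.absNorm v.asIdeal : ℂ) ^ (-s) +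
    if ((W.Δ : ℤ) : 𝓞 K) ∈ v.asIdeal then 0 else (Ideal.absNorm v.asIdeal : ℂ) ^ (1 - 2 * s))⁻¹

/-- The equation is minimal at the finite place `v` of `K`: no change of variables over `K` that
keeps the coefficients integral at `v` decreases the valuation of the discriminant. -/
def MinimalAt (W : WeierstrassCurve ℤ) (v : HeightOneSpectrum (𝓞 K)) : Prop :=
  ∀ C : VariableChange K, v.valuation K (C • base W K).a₁ ≤ 1 →
    v.valuation K (C • base W K).a₂ ≤ 1 → v.valuation K (C • base W K).a₃ ≤ 1 →
    v.valuation K (C • base W K).a₄ ≤ 1 → v.valuation K (C • base W K).a₆ ≤ 1 →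
    v.valuation K (C • base W K).Δ ≤ v.valuation K (base W K).Δ

/-- `E⁰(K_v)`, the group of the points of `W` over the completion `K_v` with nonsingular reduction:
the points `(x, y)` where `x` is not integral, or one of the partial derivatives of
`y² + a₁ x y + a₃ y - x³ - a₂ x² - a₄ x - a₆` is a unit at `(x, y)`, and the point at infinity. -/
noncomputable def nonsing (W : WeierstrassCurve ℤ) (v : HeightOneSpectrum (𝓞 K)) :
    AddSubgroup (base W (v.adicCompletion K)).toAffine.Point :=
  AddSubgroup.closure {P | ∀ x y h, P = Affine.Point.some x y h →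
    1 < Valued.v x ∨ Valued.v (W.a₁ * y - (3 * x ^ 2 + 2 * W.a₂ * x + W.a₄)) = 1 ∨
      Valued.v (2 * y + W.a₁ * x + W.a₃) = 1}

/-- The Tamagawa number `c_v = [E(K_v) : E⁰(K_v)]` of a minimal equation. -/
noncomputable def c (W : WeierstrassCurve ℤ) (v : HeightOneSpectrum (𝓞 K)) : ℕ :=
  (nonsing W v).index

end

section

variable (K : Type) [Field K] [NumberField K]

/-- The product of the Tamagawa numbers. -/
noncomputable def Tam (W : WeierstrassCurve ℤ) : ℕ := ∏ᶠ v : HeightOneSpectrum (𝓞 K), c W v

/-- The 2-primary part of the Tate-Shafarevich group over `K`. -/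
noncomputable abbrev Sha2 (W : WeierstrassCurve ℤ) : AddSubgroup (Sha (base W K)) :=
  AddCommGroup.primaryComponent (Sha (base W K)) 2

/-- The torsion points over `K`. -/
def tors (W : WeierstrassCurve ℤ) : Set (base W K).toAffine.Point := {P | ∃ n : ℕ, 0 < n ∧ n • P = 0}

/-- The rank of the group of the points over `K`. -/
noncomputable def rank (W : WeierstrassCurve ℤ) : ℕ := Module.finrank ℤ (base W K).toAffine.Point

/-- `g` is a basis of the group of the points over `K` modulo torsion. -/
def IsBasis (W : WeierstrassCurve ℤ) {r : ℕ} (g : Fin r → (base W K).toAffine.Point) : Prop :=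
  ∀ P : (base W K).toAffine.Point, ∃! n : Fin r → ℤ, P - ∑ i, n i • g i ∈ tors K W

/-- `h` is the canonical height: `h(P) = lim 4^{-k} h_K(x(2^k P))`, where `h_K` is the logarithmic
height relative to `K`. -/
def IsHeight (W : WeierstrassCurve ℤ) (h : (base W K).toAffine.Point → ℝ) : Prop :=
  ∀ P : (base W K).toAffine.Point,
    Tendsto (fun k : ℕ => Height.logHeight ((2 ^ k : ℕ) • P).xRep / 4 ^ k) atTop (𝓝 (h P))

/-- The regulator, the determinant of `⟨g_i, g_j⟩ = (h(g_i + g_j) - h(g_i) - h(g_j)) / 2`. -/
noncomputable def reg (W : WeierstrassCurve ℤ) (h : (base W K).toAffine.Point → ℝ) {r : ℕ}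
    (g : Fin r → (base W K).toAffine.Point) : ℝ :=
  (Matrix.of fun i j : Fin r => (h (g i + g j) - h (g i) - h (g j)) / 2).det

end

/-- `4 x³ + b₂ x² + 2 b₄ x + b₆ = (2 y + a₁ x + a₃)²`, where `b₂ = a₁² + 4 a₂`,
`b₄ = 2 a₄ + a₁ a₃`, `b₆ = a₃² + 4 a₆`. -/
def cubic (W : WeierstrassCurve ℤ) {R : Type} [CommRing R] (x : R) : R :=
  4 * x ^ 3 + W.b₂ * x ^ 2 + 2 * W.b₄ * x + W.b₆

/-- `∫_{W(ℝ)} |ω|` with `ω = dx / (2 y + a₁ x + a₃)`, as an integral over `x`: two real points lie
over each `x` with `cubic x > 0`. -/
noncomputable def realPeriod (W : WeierstrassCurve ℤ) : ℝ :=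
  2 * ∫ x in {x : ℝ | 0 < cubic W x}, 1 / √(cubic W x)

/-- `2 ∫_{W(ℂ)} |ω ∧ ω̄|`, where `|ω ∧ ω̄| = du dv` in a local parameter `z = u + i v` with
`dz = ω`, as an integral over `x`: two points lie over a general `x`, and `|ω ∧ ω̄|` is the area
element of the plane of `x` divided by `|cubic x|`. -/
noncomputable def complexPeriod (W : WeierstrassCurve ℤ) : ℝ := 2 * (2 * ∫ x : ℂ, 1 / ‖cubic W x‖)

/-- The global period of an equation that is minimal at all finite places. -/
noncomputable def Omega (K : Type) [Field K] [NumberField K] (W : WeierstrassCurve ℤ) : ℝ :=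
  realPeriod W ^ nrRealPlaces K * complexPeriod W ^ nrComplexPlaces K

/-- The `L`-function of `W` over `K` is an entire function `L`, its order at `s = 1` is `n`, and `x` is
the analytic order of the Tate-Shafarevich group, that is
`L*(1) √|Δ_K| (#E(K)_tors)² / (Reg Ω Tam)`, where `L*(1)` is the leading coefficient at `1`: the value
of `#Ш` that is predicted by the conjecture.  (The three numbers in the denominator and the number of
the torsion points are positive.) -/
def IsAnalyticSha (K : Type) [Field K] [NumberField K] (W : WeierstrassCurve ℤ) (n : ℕ) (x : ℂ) :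
    Prop :=
  ∃ (L : ℂ → ℂ) (l : ℂ) (h : (base W K).toAffine.Point → ℝ) (r : ℕ)
    (g : Fin r → (base W K).toAffine.Point), Differentiable ℂ L ∧
    (∀ s : ℂ, 3 / 2 < s.re → HasProd (factor (K := K) W s) (L s)) ∧
    analyticOrderAt L 1 = n ∧ Tendsto (fun s => L s / (s - 1) ^ n) (𝓝[≠] 1) (𝓝 l) ∧
    IsHeight K W h ∧ IsBasis K W g ∧ 0 < reg K W h g ∧ 0 < Omega K W ∧ 0 < Tam K W ∧
    0 < Nat.card (tors K W) ∧
    x = l * ((√|(discr K : ℝ)| : ℝ) : ℂ) * (Nat.card (tors K W) : ℂ) ^ 2 /
      (((reg K W h g * Omega K W * Tam K W : ℝ)) : ℂ)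

/-- The 2-part of the conjecture of Birch and Swinnerton-Dyer for `W` over `K`: the `L`-function is
entire, its order at `s = 1` is the rank, the 2-primary part of the Tate-Shafarevich group is finite,
and the analytic order of the Tate-Shafarevich group is a rational number with the same 2-adic
valuation as the order of that 2-primary part. -/
def TwoPart (K : Type) [Field K] [NumberField K] (W : WeierstrassCurve ℤ) : Prop :=
  ∃ x : ℚ, x ≠ 0 ∧ IsAnalyticSha K W (rank K W) x ∧ Finite (Sha2 K W) ∧
    padicValRat 2 x = padicValNat 2 (Nat.card (Sha2 K W))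

/-- The prime divisors of `D` are inert in `ℚ(√2)` (`3` or `5` modulo `8`) and in `ℚ(√-7)` (not
squares modulo `7`). -/
def InertPrimes (D : ℤ) : Prop := ∀ p : ℕ, p.Prime → (p : ℤ) ∣ D →
  (p % 8 = 3 ∨ p % 8 = 5) ∧ (p % 7 = 3 ∨ p % 7 = 5 ∨ p % 7 = 6)

/-- The conclusion over `K`: the equation is minimal at all the finite places, the `L`-function is
entire and does not vanish at `1`, the rank is zero, the 2-primary part of the Tate-Shafarevich group
is trivial, and its analytic order is a rational number with 2-adic valuation zero.  In particular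
`TwoPart K (twist D)` holds (it is included). -/
def TrivialTwoPart (K : Type) [Field K] [NumberField K] (D : ℤ) : Prop :=
  (∀ v : HeightOneSpectrum (𝓞 K), MinimalAt (twist D) v) ∧ TwoPart K (twist D) ∧
    rank K (twist D) = 0 ∧ Nat.card (Sha2 K (twist D)) = 1 ∧
    ∃ x : ℚ, x ≠ 0 ∧ padicValRat 2 x = 0 ∧ IsAnalyticSha K (twist D) 0 x

/-- The numbers `2` and `7` are inert in `K` and the narrow class number is odd. -/
def OddClass (K : Type) [Field K] [NumberField K] : Prop :=
  (Ideal.span {((2 : ℕ) : 𝓞 K)}).IsPrime ∧ (Ideal.span {((7 : ℕ) : 𝓞 K)}).IsPrime ∧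
    Odd (Nat.card (NCl K))

/-- Each prime divisor `p` of `D` does not divide `14 q`, and `p` is inert in `K`, or it is `5` modulo `8`
and not a square modulo `7`, with arbitrary decomposition in `K`. -/
def Allowed (K : Type) [Field K] [NumberField K] (q : ℕ) (D : ℤ) : Prop :=
  ∀ p : ℕ, p.Prime → (p : ℤ) ∣ D → ¬ p ∣ 14 * q ∧
    ((Ideal.span {((p : ℕ) : 𝓞 K)}).IsPrime ∨
      (p % 8 = 5 ∧ (p % 7 = 3 ∨ p % 7 = 5 ∨ p % 7 = 6)))

/-- The rank part of the conjecture of Birch and Swinnerton-Dyer for `W` over `K`: the `L`-function is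
entire, and its order at `s = 1` is the rank. -/
def RankPart (K : Type) [Field K] [NumberField K] (W : WeierstrassCurve ℤ) : Prop :=
  ∃ L : ℂ → ℂ, Differentiable ℂ L ∧
    (∀ s : ℂ, 3 / 2 < s.re → HasProd (factor (K := K) W s) (L s)) ∧
    analyticOrderAt L 1 = (rank K W : ℕ)

/-- The comparison of `E_D` over `K` and over `ℚ`.
(a) The equation is minimal at all the finite places of `K` and `ℚ`, almost all the Tamagawa numbers are
`1`, and the 2-adic valuation of their product over `K` is `1 + ∑_{p | D} #{v | p} e_p`, where `e_p = 2`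
if `-7` is a square modulo `p`, and `e_p = 1` otherwise.
(b) `E_D(K)` and `E_D(ℚ)` have the same rank, and the 2-primary parts of the Tate-Shafarevich groups
over `K` and over `ℚ` are isomorphic.
(c) The `L`-functions over `ℚ` and `K` are entire with the same order `n` at `s = 1`, and the analytic
orders `x₀`, `x` of the Tate-Shafarevich groups satisfy `x = ρ x₀` with a rational number `ρ ≠ 0` of
2-adic valuation zero.
(d) The 2-part of the conjecture holds over `K` if and only if it holds over `ℚ`.
(e) The rank part of the conjecture holds over `K` if and only if it holds over `ℚ`. -/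
def Comparison (K : Type) [Field K] [NumberField K] (D : ℤ) : Prop :=
  (∀ v : HeightOneSpectrum (𝓞 K), MinimalAt (twist D) v) ∧
  (∀ v : HeightOneSpectrum (𝓞 ℚ), MinimalAt (twist D) v) ∧
  {v : HeightOneSpectrum (𝓞 K) | c (twist D) v ≠ 1}.Finite ∧
  {v : HeightOneSpectrum (𝓞 ℚ) | c (twist D) v ≠ 1}.Finite ∧
  padicValNat 2 (Tam K (twist D)) = 1 + ∑ p ∈ D.natAbs.primeFactors,
    Nat.card {v : HeightOneSpectrum (𝓞 K) // ((p : ℕ) : 𝓞 K) ∈ v.asIdeal} *
      (if IsSquare (-7 : ZMod p) then 2 else 1) ∧
  rank K (twist D) = rank ℚ (twist D) ∧ Nonempty (Sha2 K (twist D) ≃+ Sha2 ℚ (twist D)) ∧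
  (∃ (n : ℕ) (x₀ x : ℂ) (ρ : ℚ), IsAnalyticSha ℚ (twist D) n x₀ ∧
    IsAnalyticSha K (twist D) n x ∧ x₀ ≠ 0 ∧ x = ρ * x₀ ∧ ρ ≠ 0 ∧ padicValRat 2 ρ = 0) ∧
  (TwoPart K (twist D) ↔ TwoPart ℚ (twist D)) ∧
  (RankPart K (twist D) ↔ RankPart ℚ (twist D))

/-- **Main theorem.** (1) Let `q` be a power of a prime, prime to `14`, and let `K` be a subfield of
odd degree of the `q`-th cyclotomic field.  Suppose that `q` is a power of three (then `K` is a layer of
the cyclotomic `ℤ₃`-extension of `ℚ`), or that `2` and `7` are inert in `K` and the narrow class number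
of `K` is odd.  Let `D = 1` modulo `4` be a squarefree integer, positive or negative, whose prime
divisors do not divide `14 q` and are inert in `K`, or `5` modulo `8` and not squares modulo `7` (with
arbitrary decomposition in `K`).  Then the comparison of `E_D` over `K` and `ℚ` holds.

(2) If moreover all the prime divisors of `D` are inert in `ℚ(√2)` and in `ℚ(√-7)`, the rank part and the
2-part of the conjecture hold over `K` and over `ℚ`; the order and the rank are zero and the 2-primary
parts of the Tate-Shafarevich groups are trivial.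

(3) Let `D = 1` modulo `4` be squarefree, prime to `42`, such that the prime divisors of `D` which are
`± 1` modulo `9` are `5` modulo `8` and not squares modulo `7`.  Then the comparison holds for all the
layers `K` of the cyclotomic `ℤ₃`-extension of `ℚ`, and the conclusion of (2) under its condition. -/
theorem result :
    (∀ (q : ℕ) [NeZero q], IsPrimePow q → q.Coprime 14 → ∀ (M : Type) [Field M] [NumberField M]
      [IsCyclotomicExtension {q} ℚ M] (K : IntermediateField ℚ M), Odd (Module.finrank ℚ K) →
      (3 ∣ q ∨ OddClass K) → ∀ D : ℤ, Squarefree D → D % 4 = 1 → Allowed K q D →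
        Comparison K D ∧ (InertPrimes D → TrivialTwoPart K D ∧ TrivialTwoPart ℚ D ∧
          RankPart K (twist D) ∧ RankPart ℚ (twist D))) ∧
    ∀ D : ℤ, Squarefree D → D % 4 = 1 → IsCoprime D 42 →
      (∀ p : ℕ, p.Prime → (p : ℤ) ∣ D → (p % 9 = 1 ∨ p % 9 = 8) →
        (p % 8 = 5 ∧ (p % 7 = 3 ∨ p % 7 = 5 ∨ p % 7 = 6))) →
      ∀ (n : ℕ) (M : Type) [Field M] [NumberField M] [IsCyclotomicExtension {3 ^ (n + 1)} ℚ M]
        (K : IntermediateField ℚ M), Odd (Module.finrank ℚ K) →
        Comparison K D ∧ (InertPrimes D → TrivialTwoPart K D ∧ TrivialTwoPart ℚ D ∧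
          RankPart K (twist D) ∧ RankPart ℚ (twist D)) := by
  have hone : ∀ (K : Type) [Field K] [NumberField K] (D : ℤ), TwoPart K (twist D) →
      rank K (twist D) = 0 → Nat.card (Sha2 K (twist D)) = 1 →
      (∃ x : ℚ, x ≠ 0 ∧ padicValRat 2 x = 0 ∧ IsAnalyticSha K (twist D) 0 x) ∧
        RankPart K (twist D) := by
    intro K _ _ D hT hr hc
    obtain ⟨x, hx0, hx, -, hv⟩ := hT
    obtain ⟨L, l, h, r, g, hL, hE, hn, -⟩ := id hx
    refine ⟨?_, L, hL, hE, hn⟩
    rw [hr] at hx
    rw [hc, padicValNat_one_right] at hv
    exact ⟨x, hx0, by rw [hv]; rfl, hx⟩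
  have h1 : ∀ (q : ℕ) [NeZero q], IsPrimePow q → q.Coprime 14 → ∀ (M : Type) [Field M]
      [NumberField M] [IsCyclotomicExtension {q} ℚ M] (K : IntermediateField ℚ M),
      Odd (Module.finrank ℚ K) → (3 ∣ q ∨ OddClass K) → ∀ D : ℤ, Squarefree D → D % 4 = 1 →
      Allowed K q D → Comparison K D ∧ (InertPrimes D → TrivialTwoPart K D ∧ TrivialTwoPart ℚ D ∧
          RankPart K (twist D) ∧ RankPart ℚ (twist D)) := by
    intro q _ hq hco M _ _ _ K hodd hcl D hD hD4 hDp
    have hcmp : Comparison K D := Pool.Agent.Run7.h743.SP.final_S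
      Pool.Agent.Results.MP_f50388_nt.AllTwistsOddDegree.parts Pool.Agent.Y697.XF.t_REGU q hq hco M
      K hodd hcl D hD hD4 hDp
    refine ⟨hcmp, fun hin => ?_⟩
    obtain ⟨k1, k2, -, -, -, k5, ⟨e⟩, -, k8, -⟩ := hcmp
    obtain ⟨m1, m2, m3⟩ := Pool.Agent.Run7.h743.IN.twoPart_Q
      Pool.Agent.Results.MP_f50388_nt.AllTwistsOddDegree.parts D hD hD4 hin
    have hT : TwoPart K (twist D) := k8.2 m1
    have hr : rank K (twist D) = 0 := k5.trans m2
    have hc : Nat.card (Sha2 K (twist D)) = 1 := (Nat.card_congr e.toEquiv).trans m3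
    obtain ⟨a1, a2⟩ := hone K D hT hr hc
    obtain ⟨b1, b2⟩ := hone ℚ D m1 m2 m3
    exact ⟨⟨k1, hT, hr, hc, a1⟩, ⟨k2, m1, m2, m3, b1⟩, a2, b2⟩
  refine ⟨h1, ?_⟩
  intro D hD hD4 hD42 h9 n M _ _ _ K hodd
  have : NeZero (3 ^ (n + 1)) := ⟨by positivity⟩
  refine h1 (3 ^ (n + 1)) (Nat.prime_three.isPrimePow.pow (by omega))
    (Nat.Coprime.pow_left _ (by norm_num)) M K hodd (Or.inl (dvd_pow_self 3 (by omega))) D hD hD4 ?_
  intro p hp hpD
  have h42 : ¬ p ∣ 42 := by
    intro h
    have h5 := hD42.isUnit_of_dvd' hpD (Int.natCast_dvd_natCast.2 h)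
    rw [Int.isUnit_iff] at h5
    have := hp.two_le
    omega
  have hp3 : p ≠ 3 := by
    rintro rfl
    exact h42 (by norm_num)
  refine ⟨fun h => ?_, ?_⟩
  · rcases (hp.dvd_mul).1 h with h4 | h4
    · exact h42 (h4.trans (by norm_num))
    · exact hp3 ((Nat.prime_dvd_prime_iff_eq hp Nat.prime_three).1 (hp.dvd_of_dvd_pow h4))
  · by_cases h : p % 9 = 1 ∨ p % 9 = 8
    · exact Or.inr (h9 p hp hpD h)
    · refine Or.inl (Pool.Agent.Run7.h743.SP.inert_three (n := n) hodd hp ?_)
      have h5 : p % 3 ≠ 0 := by
        intro h6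
        exact hp3 ((Nat.prime_dvd_prime_iff_eq Nat.prime_three hp).1 (Nat.dvd_of_mod_eq_zero h6)).symm
      omega

end Pool.Agent.Results.MP_ae0bd0_nt.TwistsOverOddDegreeFields
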