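import Pool.Agent.Run7.h428.X15.Tor2
import Pool.Agent.N916.GB.Num

/-!
# The rank conjecture over multiquadratic fields for the quadratic twists of `X_0(15)`

`E_n : y² = x (x + 9 n) (x + 25 n)` is the quadratic twist by `-n` of
`X_0(15) : y² = x (x - 9) (x - 25)`, a curve without complex multiplication. The class consists of the
squarefree `n` congruent to `23` or `47` modulo `60`, in the natural order; a multiplier is a squarefree
`m` congruent to `1` or `49` modulo `60`, and the squarefree part `tw m n` of `m n` is again in the class.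
Let `S` be any finite set of multipliers and `F = ℚ(√d : d ∈ S)`, a totally real field of degree `2 ^ k`,
and `η = ∏_{i ≥ 1} (1 - 2^{-i}) = 0.2888...`.

* If for all squarefree `m ≥ 1` with `√m ∈ F` the group `E_{tw m n}(ℚ)` is finite and
  `Ш(E_{tw m n}/ℚ)[2^∞] = 0`, then `L(E_n/F, s)` is entire and
  `ord_{s=1} L(E_n/F, s) = rank E_n(F) = 0`, and `E_n(F)` has exactly four elements; the same over all
  subfields of `F`.
* If this is so for all `m ≠ 1`, then, whatever the rank of `E_n(ℚ)` is, the order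
  of vanishing and the rank over `F` are the same as over `ℚ`; so the rank conjecture for `E_n` over `F`
  is equivalent to that over `ℚ`. The torsion subgroup of `E_n(F)` has order four, and `2 E_n(F) ⊆ E_n(ℚ)`.
* The proportion of the `n` as in the first point is exactly `η ^ [F : ℚ]`, and that of the `n` as in the
  second point is exactly `η ^ ([F : ℚ] - 1)`.

`L(E/F, s)` is the L-series of Mathlib of an elliptic curve over a number field, with all its Euler
factors (from minimal equations at all places of `F`).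

The proof uses, over `ℚ`: the complete 2-descent (`Run7/h424/DC`); the modular parametrization, the
functional equation and Gross's formula for the central values of the twists, whose 2-adic valuation
is minimal exactly under the criterion of the descent (`Run7/h741/MF`, `Run7/h209/P15`,
`Run7/h555/P15`, `Run7/h135/P15`, `Run7/h238/P`, `Run7/h483/P15`); the joint law of the Rédei systems for
several multipliers (`Run7/h238/J`, `Run7/h843/J`, `Run7/h209/J`, `Run7/h89/J`, `Run7/h424/J`,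
`Run7/h289/J`). New here is the passage to `F`: the places of `F`, the Euler factors of `E_n` over `F`
(good, additive, nonsplit multiplicative reduction; fields with `p` and `p²` elements), the L-function
over `F` as a product, and the points over `F` (`Run7/h428/NF`, `Run7/h428/X15`, `Run7/h483/NF`,
`Run7/h921/NF`, after `Run7/h401/MQ` for `X_0(49)`).
-/

set_option autoImplicit false

open NumberField WeierstrassCurve Filter Topology

namespace Pool.Agent.Results.MP_ae0bd0_nt.TwistsX15Multiquadratic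

open Pool.Agent.TH841.NF.D (Sha)

/-- the class -/
def Class (n : ℕ) : Prop := Squarefree n ∧ (n % 60 = 23 ∨ n % 60 = 47)

/-- the multipliers -/
def Mult (m : ℕ) : Prop := Squarefree m ∧ (m % 60 = 1 ∨ m % 60 = 49)

/-- the squarefree part of `m n`, for `m` and `n` squarefree -/
def tw (m n : ℕ) : ℕ := m * n / (Nat.gcd m n) ^ 2

/-- the curve `E_n : y² = x (x + 9 n) (x + 25 n)` over `ℚ` -/
def E (n : ℕ) : WeierstrassCurve ℚ :=
  { a₁ := 0, a₂ := 34 * n, a₃ := 0, a₄ := 225 * (n : ℚ) ^ 2, a₆ := 0 }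

/-- the global minimal equation of `E_n` (the divisions are exact for `n ≡ 3 mod 4`):
`y² + x y + y = x³ + ((5 D - 1) / 4) x² - ((19 D² + 1) / 2) x - (39 D³ + 1) / 4` with `D = -n` -/
def Emin (n : ℕ) : WeierstrassCurve ℤ :=
  ⟨1, (5 * (-(n : ℤ)) - 1) / 4, 1, -((19 * (-(n : ℤ)) ^ 2 + 1) / 2),
    -((39 * (-(n : ℤ)) ^ 3 + 1) / 4)⟩

/-- `E_n` over the field `F` -/
noncomputable abbrev EF (F : Type) [Field F] (n : ℕ) : WeierstrassCurve F :=
  (Emin n).map (Int.castRingHom F)

/-- `E_n(ℚ)` is finite and `Ш(E_n/ℚ)[2^∞] = 0` -/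
def TrivialTwo (n : ℕ) : Prop :=
  Finite (E n).toAffine.Point ∧ ∀ k : ℕ, ∀ x : Sha (E n), 2 ^ k • x = 0 → x = 0

/-- the field `ℚ(√d : d ∈ S)` -/
noncomputable def field (S : Finset ℕ) : IntermediateField ℚ ℂ :=
  IntermediateField.adjoin ℚ {z : ℂ | ∃ d ∈ S, z ^ 2 = (d : ℂ)}

/-- for all squarefree `m ≥ 1` whose square roots are in `F`, the twist of `E_n` by `m` has finitely many
rational points and `Ш[2^∞] = 0` -/
def Good (F : IntermediateField ℚ ℂ) (n : ℕ) : Prop :=
  ∀ m : ℕ, Squarefree m → (∃ z ∈ F, z ^ 2 = (m : ℂ)) → TrivialTwo (tw m n)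

/-- the same for all `m ≠ 1` -/
def GoodTwists (F : IntermediateField ℚ ℂ) (n : ℕ) : Prop :=
  ∀ m : ℕ, Squarefree m → m ≠ 1 → (∃ z ∈ F, z ^ 2 = (m : ℂ)) → TrivialTwo (tw m n)

open Classical in
/-- The rank conjecture for `E_n` over the number field `F`, with order and rank zero: `L(E_n/F, s)` has an
entire continuation `Λ` with `ord_{s=1} Λ = rank E_n(F)`, `Λ(1) ≠ 0` and `E_n(F)` has exactly four elements. -/
def RankFormula (F : Type) [Field F] [NumberField F] (n : ℕ) : Prop :=
  ∃ Λ : ℂ → ℂ, Differentiable ℂ Λ ∧ (∀ s : ℂ, 2 < s.re → Λ s = (EF F n).LSeries s) ∧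
    analyticOrderAt Λ 1 = (Module.finrank ℤ (EF F n).toAffine.Point : ℕ∞) ∧
    Λ 1 ≠ 0 ∧ Nat.card (EF F n).toAffine.Point = 4

open Classical in
/-- `E_n(M)` is finitely generated, its rank is that of `E_n(ℚ)`, its torsion subgroup has order four, and
twice any point of it is rational. -/
def SamePoints (M : Type) [Field M] (n : ℕ) : Prop :=
  Module.Finite ℤ (EF M n).toAffine.Point ∧
  Module.rank ℤ (EF M n).toAffine.Point = Module.rank ℤ (EF ℚ n).toAffine.Point ∧
  Nat.card (AddCommGroup.torsion (EF M n).toAffine.Point) = 4 ∧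
  ∀ P : (EF M n).toAffine.Point, P + P = 0 ∨
    ∃ (x y : ℚ) (h : (EF M n).toAffine.Nonsingular (x : M) (y : M)),
      P + P = Affine.Point.some (x : M) (y : M) h

/-- `L(E_n/F, s)` and `L(E_n/ℚ, s)` have entire continuations with the same order of vanishing at `s = 1`,
and the groups `E_n(F)` and `E_n(ℚ)` are the same up to points killed by two modulo `E_n(ℚ)`, in particular
of the same rank. -/
def Stable (F : Type) [Field F] [NumberField F] (n : ℕ) : Prop :=
  (∃ Λ Λ₀ : ℂ → ℂ, Differentiable ℂ Λ ∧ Differentiable ℂ Λ₀ ∧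
    (∀ s : ℂ, 2 < s.re → Λ s = (EF F n).LSeries s) ∧
    (∀ s : ℂ, 2 < s.re → Λ₀ s = (EF ℚ n).LSeries s) ∧
    analyticOrderAt Λ 1 = analyticOrderAt Λ₀ 1) ∧
  SamePoints F n

open Classical in
/-- the number of the `n ≤ X` of the class with the property `Q` -/
noncomputable def num (Q : ℕ → Prop) (X : ℕ) : ℕ :=
  ((Finset.Icc 1 X).filter fun n => Class n ∧ Q n).card

/-- the constant `0.2888...` -/
noncomputable def η : ℝ := ∏' i : ℕ, (1 - (1 / 2 : ℝ) ^ (i + 1))

section proof

open Run7.h428.X15 Run7.h428.Kum Run7.h428.NF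
open Pool.Agent.N969.P15 (Cls0 Qc)

theorem triv_iff {n : ℕ} (h : Class n) : TrivialTwo n ↔ Qc n := by
  have h60 : n % 60 = 23 ∨ n % 60 = 47 := h.2
  have hW : E n = ⟨0, ((34 * n : ℤ) : ℚ), 0, ((225 * n ^ 2 : ℤ) : ℚ), 0⟩ := by
    unfold E
    push_cast
    rfl
  exact Run7.h424.DC.iffF h.1 h60 hW

theorem iso_vr {F : Type} [Field F] {W W' : WeierstrassCurve F} {u r s t : F}
    (h : Pool.Agent.Y700.VR W W' u r s t) : ∃ C : VariableChange F, C • W = W' := by
  obtain ⟨u0, e1, e2, e3, e4, e6⟩ := h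
  refine ⟨⟨Units.mk0 u u0, r, s, t⟩, ?_⟩
  have hu : (((Units.mk0 u u0)⁻¹ : Fˣ) : F) = u⁻¹ := by simp
  ext
  · rw [variableChange_a₁, hu]
    field_simp
    linear_combination -e1
  · rw [variableChange_a₂, hu]
    field_simp
    linear_combination -e2
  · rw [variableChange_a₃, hu]
    field_simp
    linear_combination -e3
  · rw [variableChange_a₄, hu]
    field_simp
    linear_combination -e4
  · rw [variableChange_a₆, hu]
    field_simp
    linear_combination -e6

theorem iso {n : ℕ} (h : Class n) : ∃ C : VariableChange ℚ, C • E n = EF ℚ n := by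
  have h60 := h.2
  have h4 : (-(n : ℤ)) % 4 = 1 := by omega
  obtain ⟨C, hC⟩ := iso_vr (Run7.h921.NF.vr (F := ℚ) h4)
  exact ⟨C, hC⟩

theorem cls_tw {F : IntermediateField ℚ ℂ} {S : Finset ℕ} (hS : ∀ d ∈ S, Mult d)
    (hF : F ≤ field S) {n m : ℕ} (hn : Class n) (hm : Squarefree m)
    (hz : ∃ z ∈ F, z ^ 2 = (m : ℂ)) : Class (tw m n) := by
  have hmu := mu_of_sqrt (S := (S : Set ℕ)) (fun d hd => hS d hd) hm (by
    obtain ⟨z, hz1, hz2⟩ := hz
    exact ⟨z, hF hz1, hz2⟩)
  have hp : ∀ l ∈ m.primeFactors, l.Prime := fun l hl => Nat.prime_of_mem_primeFactors hl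
  have hP := Nat.prod_primeFactors_of_squarefree hm
  have h1 := tn_tw hn.1 hp
  rw [hP] at h1
  have h2 : Class (tn n m.primeFactors) := ⟨tn_sqf hp, tn_mod hn.1 hn.2 hp (by rw [hP]; exact hmu.2)⟩
  rw [h1] at h2
  exact h2

theorem good_iff {F : IntermediateField ℚ ℂ} {S : Finset ℕ} (hS : ∀ d ∈ S, Mult d)
    (hF : F ≤ field S) {n : ℕ} (hn : Class n) : Good F n ↔ GdS F n := by
  constructor
  · intro h m hm hz
    exact (triv_iff (cls_tw hS hF hn hm hz)).1 (h m hm hz)
  · intro h m hm hz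
    exact (triv_iff (cls_tw hS hF hn hm hz)).2 (h m hm hz)

theorem gt_iff {F : IntermediateField ℚ ℂ} {S : Finset ℕ} (hS : ∀ d ∈ S, Mult d)
    (hF : F ≤ field S) {n : ℕ} (hn : Class n) : GoodTwists F n ↔ AlS F n := by
  constructor
  · intro h m hm hm1 hz
    exact (triv_iff (cls_tw hS hF hn hm hz)).1 (h m hm hm1 hz)
  · intro h m hm hm1 hz
    exact (triv_iff (cls_tw hS hF hn hm hz)).2 (h m hm hm1 hz)

theorem fr_zero (F : Type) [Field F] [DecidableEq F] (W : WeierstrassCurve F)
    (h : Finite W.toAffine.Point) : Module.finrank ℤ W.toAffine.Point = 0 := by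
  apply Module.finrank_eq_zero_of_rank_eq_zero
  rw [rank_eq_zero_iff]
  intro x
  refine ⟨(Nat.card W.toAffine.Point : ℤ), ?_, ?_⟩
  · have : 0 < Nat.card W.toAffine.Point := Nat.card_pos
    exact_mod_cast this.ne'
  · rw [natCast_zsmul]
    exact card_nsmul_eq_zero'

theorem below_good {S : Finset ℕ} (hS : ∀ d ∈ S, Mult d) {n : ℕ} (hn : Class n)
    (hg : Good (field S) n) (F : IntermediateField ℚ ℂ) [NumberField F] (hF : F ≤ field S) :
    RankFormula F n := by
  have hg' : GdS F n := (good_iff hS hF hn).1 fun m hm hz => hg m hm (by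
    obtain ⟨z, hz1, hz2⟩ := hz
    exact ⟨z, hF hz1, hz2⟩)
  obtain ⟨S₁, hS₁, hFS⟩ := sub_of (S := (S : Set ℕ)) (fun d hd => hS d hd) F hF
  subst hFS
  obtain ⟨⟨Λ, h1, h2, h3⟩, h4⟩ := zero_S hS₁ hn hg'
  refine ⟨Λ, h1, h2, ?_, h3, card_EF (S := (S₁ : Set ℕ)) (fun m hm => hS₁ m hm) hn hg'⟩
  have h5 := @fr_zero (fld (S₁ : Set ℕ)) _ (fun a b => Classical.propDecidable (a = b))
    (EF (fld (S₁ : Set ℕ)) n) h4
  rw [analyticOrderAt_eq_zero.2 (Or.inr h3), h5]
  rfl

theorem pts {S : Set ℕ} (hS : ∀ m ∈ S, Mu m) {n : ℕ} (hn : Class n) (hg : AlS (fld S) n) :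
    SamePoints (fld S) n :=
  ⟨fg_EF hS hn hg _, rank_EF hS hn hg _ _, tors_EF hS hn _, @dbl_EF S n hS hn hg (fun a b => Classical.propDecidable (a = b))⟩

theorem below_stable {S : Finset ℕ} (hS : ∀ d ∈ S, Mult d) {n : ℕ} (hn : Class n)
    (hg : GoodTwists (field S) n) (F : IntermediateField ℚ ℂ) [NumberField F]
    (hF : F ≤ field S) : Stable F n := by
  have hg' : AlS F n := (gt_iff hS hF hn).1 fun m hm hm1 hz => hg m hm hm1 (by
    obtain ⟨z, hz1, hz2⟩ := hz
    exact ⟨z, hF hz1, hz2⟩)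
  obtain ⟨S₁, hS₁, hFS⟩ := sub_of (S := (S : Set ℕ)) (fun d hd => hS d hd) F hF
  subst hFS
  obtain ⟨⟨Λ, h1, h2, h3⟩, h4⟩ := stable_S hS₁ hn hg'
  exact ⟨⟨Λ, Lq n, h1, Lq_diff n, h2, fun s hs => lserQ hn hs, h3⟩,
    pts (S := (S₁ : Set ℕ)) (fun m hm => hS₁ m hm) hn hg'⟩

theorem num_eq {Q R : ℕ → Prop} (h : ∀ n, Class n → (Q n ↔ R n)) (X : ℕ) :
    num Q X = Run7.h428.X15.num R X := by
  unfold num Run7.h428.X15.num
  refine congrArg Finset.card (Finset.ext fun n => ?_)
  rw [mf, mf]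
  exact and_congr_right fun _ => and_congr_right fun hn => h n hn

/-- the degrees -/
theorem deg_primes {S : Finset ℕ} (hS : ∀ d ∈ S, Mult d) (hp : ∀ d ∈ S, d.Prime) :
    Module.finrank ℚ (field S) = 2 ^ S.card := by
  obtain ⟨r, h⟩ := mq (S := S) hS
  have h1 : Module.finrank ℚ (field S) = (HF (fld (S : Set ℕ)) S).card := h.finrank_eq
  rw [h1, ← Finset.card_powerset]
  congr 1
  ext T
  rw [mem_HF, Finset.mem_powerset]
  have hb : S.biUnion Nat.primeFactors = S := by
    ext l
    rw [Finset.mem_biUnion]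
    constructor
    · rintro ⟨d, hd, hl⟩
      rw [(hp d hd).primeFactors, Finset.mem_singleton] at hl
      rw [hl]
      exact hd
    · intro hl
      exact ⟨l, hl, by rw [(hp l hl).primeFactors]; exact Finset.mem_singleton_self l⟩
  rw [hb]
  constructor
  · exact fun h => h.1
  · intro hT
    refine ⟨hT, ?_⟩
    have h2 : ∀ l ∈ T, ∃ z : fld (S : Set ℕ), z ^ 2 = (l : fld (S : Set ℕ)) :=
      fun l hl => gen1 S l (hT hl)
    choose! f hf using h2
    refine ⟨∏ l ∈ T, f l, ?_⟩
    rw [← Finset.prod_pow, Finset.prod_congr rfl hf]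
    push_cast
    rfl

end proof

theorem result (S : Finset ℕ) (hS : ∀ d ∈ S, Mult d) :
    (∀ n, Class n → ∃ C : VariableChange ℚ, C • E n = EF ℚ n) ∧
    (∀ n, Class n → Good (field S) n →
      ∀ (F : IntermediateField ℚ ℂ) [NumberField F], F ≤ field S → RankFormula F n) ∧
    (∀ n, Class n → GoodTwists (field S) n →
      ∀ (F : IntermediateField ℚ ℂ) [NumberField F], F ≤ field S → Stable F n) ∧
    Tendsto (fun X => (num (Good (field S)) X : ℝ) / (num (fun _ => True) X : ℝ)) atTop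
      (𝓝 (η ^ Module.finrank ℚ (field S))) ∧
    Tendsto (fun X => (num (GoodTwists (field S)) X : ℝ) / (num (fun _ => True) X : ℝ)) atTop
      (𝓝 (η ^ (Module.finrank ℚ (field S) - 1))) ∧
    0.2887 < η ∧ η < 0.2889 ∧
    (∀ᶠ X : ℕ in atTop, (1 / 480 : ℝ) * X ≤ num (fun _ => True) X) ∧
    ((∀ d ∈ S, d.Prime) → Module.finrank ℚ (field S) = 2 ^ S.card) := by
  refine ⟨fun n hn => iso hn, fun n hn hg F _ hF => below_good hS hn hg F hF,
    fun n hn hg F _ hF => below_stable hS hn hg F hF, ?_, ?_, Pool.Agent.N916.GB.eta_bounds.1,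
    Pool.Agent.N916.GB.eta_bounds.2, ?_, deg_primes hS⟩
  · have h := Run7.h428.X15.prop_gd (S := S) hS
    refine h.congr fun X => ?_
    rw [num_eq (fun n hn => good_iff hS le_rfl hn) X, num_eq (fun n _ => Iff.rfl) X]
    rfl
  · have h := Run7.h428.X15.prop_al (S := S) hS
    refine h.congr fun X => ?_
    rw [num_eq (fun n hn => gt_iff hS le_rfl hn) X, num_eq (fun n _ => Iff.rfl) X]
    rfl
  · filter_upwards [eventually_ge_atTop (100 * 120 ^ 2)] with X hX
    have h1 := Run7.h428.X15.low120 X hX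
    have h2 : num (fun _ => True) X = (Run7.h428.X15.SX X).card := by
      unfold num
      refine congrArg Finset.card (Finset.ext fun n => ?_)
      rw [Run7.h428.X15.mf, Run7.h428.X15.mem_SX, Finset.mem_Icc, and_true]
      rfl
    rw [h2]
    exact h1

end Pool.Agent.Results.MP_ae0bd0_nt.TwistsX15Multiquadratic
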